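import Pool.Agent.H.MP_badb58_gt.A

set_option autoImplicit false

namespace Pool.Agent.Results.MP_8dcd4d_gt.NotCoCons

open Set

/-- `F` is a Scott open subset of the lattice of open sets of `X`. -/
def ScottOpenFamily (X : Type) [TopologicalSpace X] (F : Set (Set X)) : Prop :=
  (∀ U ∈ F, IsOpen U) ∧ (∀ U V : Set X, U ∈ F → IsOpen V → U ⊆ V → V ∈ F) ∧
  (∀ D : Set (Set X), D.Nonempty → (∀ U ∈ D, IsOpen U) → DirectedOn (· ⊆ ·) D → ⋃₀ D ∈ F →
    ∃ U ∈ D, U ∈ F)

/-- co-consonance, in the second form given in the problem file. -/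
def CoConsonant (X : Type) [TopologicalSpace X] : Prop :=
  ∀ F : Set (Set X), ScottOpenFamily X F → ∀ U ∈ F, ∃ E : Set (Set X), E.Finite ∧
    (∀ A ∈ E, IsClosed A) ∧ (∀ A ∈ E, (U ∩ A).Nonempty) ∧
    ∀ V : Set X, IsOpen V → (∀ A ∈ E, (V ∩ A).Nonempty) → V ∈ F

/-- nonempty compact saturated subsets. -/
def Smyth (X : Type) [TopologicalSpace X] : Type :=
  {K : Set X // K.Nonempty ∧ IsCompact K ∧ K = ⋂₀ {U | IsOpen U ∧ K ⊆ U}}

/-- the upper Vietoris topology. -/
def upperVietoris (X : Type) [TopologicalSpace X] : TopologicalSpace (Smyth X) :=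
  TopologicalSpace.generateFrom {S | ∃ U : Set X, IsOpen U ∧ S = {K : Smyth X | K.1 ⊆ U}}

lemma iff_FC (X : Type) [TopologicalSpace X] : CoConsonant X ↔ H.MP_badb58_gt.FC X := by
  constructor
  · intro h F hF U hU
    obtain ⟨E, h1, -, h3, h4⟩ := h F hF U hU
    choose a ha using h3
    have := h1.to_subtype
    refine ⟨range fun A : E => a A.1 A.2, finite_range _, ?_, fun V hV h => h4 V hV fun A hA =>
      ⟨a A hA, h ⟨⟨A, hA⟩, rfl⟩, (ha A hA).2⟩⟩
    rintro _ ⟨A, rfl⟩
    exact (ha A.1 A.2).1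
  · intro h F hF U hU
    obtain ⟨E, h1, h2, h3⟩ := h F hF U hU
    refine ⟨(fun x => closure {x}) '' E, h1.image _, ?_, ?_, fun V hV h => h3 V hV fun x hx => ?_⟩
    · rintro _ ⟨x, -, rfl⟩; exact isClosed_closure
    · rintro _ ⟨x, hx, rfl⟩; exact ⟨x, h2 hx, subset_closure rfl⟩
    · have := h _ ⟨x, hx, rfl⟩
      rw [inter_comm, closure_inter_open_nonempty_iff hV, singleton_inter_nonempty] at this
      exact this

theorem result : ∃ (X : Type) (_ : TopologicalSpace X), T0Space X ∧ CoConsonant X ∧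
    ¬ @CoConsonant (Smyth X) (upperVietoris X) := by
  refine ⟨H.MP_badb58_gt.XX, inferInstance, inferInstance,
    (iff_FC _).2 H.MP_badb58_gt.FC_X, fun h => H.MP_badb58_gt.not_cons_PS ?_⟩
  have key : ∀ (X : Type) [TopologicalSpace X] (p q : Set X → Prop), p = q →
      @H.MP_badb58_gt.Cons {K // p K} (TopologicalSpace.generateFrom
        {S | ∃ U : Set X, IsOpen U ∧ S = {K : {K // p K} | K.1 ⊆ U}}) →
      @H.MP_badb58_gt.Cons {K // q K} (TopologicalSpace.generateFrom
        {S | ∃ U : Set X, IsOpen U ∧ S = {K : {K // q K} | K.1 ⊆ U}}) := by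
    rintro X _ p q rfl h
    exact h
  letI := upperVietoris H.MP_badb58_gt.XX
  refine key _ _ _ ?_ ((iff_FC _).1 h).cons
  funext K
  refine propext (and_congr_right fun _ => and_congr_right fun _ => ⟨fun h x hx => ?_, fun h => ?_⟩)
  · rw [h]
    exact fun U hU => hx U hU.1 hU.2
  · exact subset_antisymm (fun x hx U hU => hU.2 hx) fun x hx => h x fun U h1 h2 => hx U ⟨h1, h2⟩

end Pool.Agent.Results.MP_8dcd4d_gt.NotCoCons
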